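import Pool.Agent.Y749.AH.Main2

/-!
# Distant pairs of zeros are not concentrated near a coset of a lattice (under RH)

Assume RH.  Montgomery's pair correlation conjecture says that the normalised differences
`(γ - γ') log T / 2π` of the ordinates in `(0, T]` that lie in a fixed window have asymptotically
the density `1 - (sin πu / πu)²`; in particular, in a distant window they are nearly uniformly
distributed modulo every `s > 0`.  Montgomery's theorem controls the form factor `F(α, T)` for
`|α| < 1` only, so it says nothing directly about the distribution of the differences modulo `s`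
when `s ≤ 1`: this is decided by `F` at `α = 1/s ≥ 1`.

We prove: for every `s > 1/2` there is `ε > 0` such that, for every sufficiently long window
`[a, a + R]`, located anywhere, and for every coset `b + s ℤ`, uniformly in `b`, at least `ε R N(T)` pairs
have a normalised difference in `[a, a + R]` at distance at least `ε` from `b + s ℤ`, for all large
`T`.  The same conclusion holds for any `s > 0` for which the mass of `F` near `1/s` is
eventually smaller than `1 - η`.
-/

open Filter
open Complex (I)

namespace Pool.Agent.Results.MP_103a5c_nt.DistantPairsAvoidCosets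

/-- multiplicity of `s` as a zero of the Riemann zeta function (order of vanishing at `s`) -/
noncomputable def zmult (s : ℂ) : ℕ := analyticOrderNatAt riemannZeta s

/-- the number of nontrivial zeros of `ζ` with ordinate in `(0, t]`, with multiplicity -/
noncomputable def NZ (t : ℝ) : ℕ :=
  ∑ᶠ s ∈ {s : ℂ | riemannZeta s = 0 ∧ 0 < s.re ∧ s.re < 1 ∧ 0 < s.im ∧ s.im ≤ t}, zmult s

/-- for `j ≥ 1`: the `j`-th positive ordinate `γ j` of a nontrivial zero of `ζ`, the ordinates being
listed in nondecreasing order and repeated according to multiplicity -/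
noncomputable def γ (j : ℕ) : ℝ := sInf {t : ℝ | j ≤ NZ t}

/-- Montgomery's function `F(α, T)` (the sum is real) -/
noncomputable def F (α T : ℝ) : ℝ :=
  (2 * Real.pi / (T * Real.log T) * ∑ i ∈ Finset.Icc 1 (NZ T), ∑ j ∈ Finset.Icc 1 (NZ T),
    (T : ℂ) ^ (I * α * (γ i - γ j)) * (4 / (4 + (γ i - γ j) ^ 2)) : ℂ).re

/-- the normalised differences `(γ_i - γ_j) log T / 2π` -/
noncomputable def x (T : ℝ) (i j : ℕ) : ℝ := (γ i - γ j) * Real.log T / (2 * Real.pi)

/-- the number of pairs `(i, j)`, `1 ≤ i, j ≤ N(T)`, whose normalised difference lies in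
`[a, a + R]` and has distance at least `ε` to the coset `b + s ℤ` -/
noncomputable def W (T a R b s ε : ℝ) : ℕ :=
  {p : ℕ × ℕ | (1 ≤ p.1 ∧ p.1 ≤ NZ T) ∧ (1 ≤ p.2 ∧ p.2 ≤ NZ T) ∧
    a ≤ x T p.1 p.2 ∧ x T p.1 p.2 ≤ a + R ∧ ∀ k : ℤ, ε ≤ |x T p.1 p.2 - b - k * s|}.ncard

/-- **Distant pairs avoid cosets.**  The hypothesis on `s` holds for every `s > 1/2`, and for every
other `s > 0` for which the form factor has less than full mass near `1 / s`. -/
theorem result (hRH : RiemannHypothesis) (s : ℝ) (hs : 0 < s)
    (h : 1 / 2 < s ∨ ∃ δ η : ℝ, 0 < δ ∧ 0 < η ∧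
      ∀ᶠ T in atTop, ∫ α in (1 / s - δ)..(1 / s + δ), F α T < 1 - η) :
    ∃ ε R0 : ℝ, 0 < ε ∧ 0 < R0 ∧ ∀ R a : ℝ, R0 ≤ R → ∀ᶠ T in atTop, ∀ b : ℝ,
      ε * R * NZ T ≤ W T a R b s ε :=
  Pool.Agent.Y749.AH.M.distant hRH hs h

end Pool.Agent.Results.MP_103a5c_nt.DistantPairsAvoidCosets
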