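import Pool.Agent.Y744.PCR.Fin2

set_option autoImplicit false

/-!
# The pair correlation conjecture is decided by one-sided bounds for distant windows of two lengths

Assume the Riemann hypothesis. Write `R(T; α, β)` for the number of ordered pairs of ordinates
`γ, γ' ∈ (0, T]` with `2πα / log T ≤ γ - γ' ≤ 2πβ / log T`, divided by `(T/2π) log T`, and
`D(α, β) = ∫_α^β (1 - (sin πu / πu)²) du`. Montgomery's conjecture says that `R(T; α, β)` tends to
`D(α, β)`, plus `1` if `0 ∈ [α, β]`, for all `α < β`.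

Let `ℓ₁, ℓ₂ > 0` with `ℓ₁ / ℓ₂` irrational. We prove that the conjecture (all windows, both
inequalities, exact constants) is equivalent to the following: for `i = 1, 2`, one of the two inequalities
`R(T; a, a + ℓᵢ) ≤ D(a, a + ℓᵢ) + C exp(-c a) + o(1)`, `R(T; a, a + ℓᵢ) ≥ D(a, a + ℓᵢ) - C exp(-c a) - o(1)`
holds for all sufficiently large `a`, with some `C, c > 0`. The same is true along every sequence of values of
`T` tending to infinity, and more generally along every filter.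
-/

open Filter Topology

namespace Pool.Agent.Results.MP_103a5c_nt.FarWindowCriterion

/-- the nontrivial zeros of `ζ` with ordinate in `(0, T]` -/
def zeros (T : ℝ) : Set ℂ :=
  {s : ℂ | 0 < s.re ∧ s.re < 1 ∧ 0 < s.im ∧ s.im ≤ T ∧ riemannZeta s = 0}

/-- the multiplicity of `s` as a zero of `ζ` -/
noncomputable def mult (s : ℂ) : ℕ := analyticOrderNatAt riemannZeta s

/-- `N(T; α, β)`: the number of ordered pairs `(γ, γ')` of ordinates in `(0, T]`, counted with
multiplicity, diagonal pairs included, with `2πα / log T ≤ γ - γ' ≤ 2πβ / log T` -/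
noncomputable def N (T α β : ℝ) : ℕ :=
  ∑ᶠ s ∈ zeros T, ∑ᶠ s' ∈ zeros T,
    if 2 * Real.pi * α / Real.log T ≤ s.im - s'.im ∧ s.im - s'.im ≤ 2 * Real.pi * β / Real.log T
    then mult s * mult s' else 0

/-- `R(T; α, β) = N(T; α, β) / ((T / 2π) log T)` -/
noncomputable def R (T α β : ℝ) : ℝ := N T α β / (T / (2 * Real.pi) * Real.log T)

/-- `D(α, β) = ∫_α^β (1 - (sin πu / πu)²) du` -/
noncomputable def D (α β : ℝ) : ℝ :=
  ∫ u in α..β, (1 - (Real.sin (Real.pi * u) / (Real.pi * u)) ^ 2)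

/-- Montgomery's pair correlation conjecture, along the filter `l` -/
def PairCorrelation (l : Filter ℝ) : Prop := ∀ α β : ℝ, α < β →
  Tendsto (fun T => R T α β) l (𝓝 (D α β + (Set.Icc α β).indicator (fun _ => 1) 0))

/-- For `s = 1`: the number of pairs in the window `[a, a + ℓ]` is at most its conjectured value, up to an
error exponentially small in `a`, for all large `a`. For `s = -1` it is at least that. -/
def OneSided (l : Filter ℝ) (ℓ s : ℝ) : Prop := ∃ C c a₀ : ℝ, 0 < C ∧ 0 < c ∧ 0 < a₀ ∧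
  ∀ a : ℝ, a₀ ≤ a → ∀ ε : ℝ, 0 < ε → ∀ᶠ T in l,
    s * (R T a (a + ℓ) - D a (a + ℓ)) ≤ C * Real.exp (-(c * a)) + ε

lemma D_eq (α β : ℝ) : D α β = Y744.gp β - Y744.gp α := by
  have h1 : ∀ a b : ℝ, ∫ u in a..b, (1 - (Real.sin (Real.pi * u) / (Real.pi * u)) ^ 2) =
      ∫ u in a..b, Y744.gd u := by
    intro a b
    refine intervalIntegral.integral_congr_ae ?_
    have : ∀ᵐ u : ℝ, u ≠ 0 := by
      rw [MeasureTheory.ae_iff]
      simp
    filter_upwards [this] with u hu _
    unfold Y744.gd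
    rw [Real.sinc_of_ne_zero (mul_ne_zero Real.pi_ne_zero hu)]
  unfold D Y744.gp
  rw [h1, ← intervalIntegral.integral_interval_sub_left
    (Y744.gd_cont.intervalIntegrable _ _) (Y744.gd_cont.intervalIntegrable _ _)]

lemma N_eq {T : ℝ} (hT : 1 < T) (α β : ℝ) : (N T α β : ℝ) = Y744.PC T (Set.Icc α β) := by
  classical
  have hL : 0 < Real.log T := Real.log_pos hT
  have hz : zeros T = ((Y744.Zt T : Finset ℂ) : Set ℂ) := by
    ext s
    rw [Finset.mem_coe, Y744.mem_Zt]
    unfold zeros H370.zset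
    simp only [Set.mem_ofPred_eq]
  unfold N Y744.PC
  rw [hz, finsum_mem_coe_finset]
  push_cast
  refine Finset.sum_congr rfl fun s _ => ?_
  rw [finsum_mem_coe_finset]
  push_cast
  refine Finset.sum_congr rfl fun s' _ => ?_
  have hiff : (2 * Real.pi * α / Real.log T ≤ s.im - s'.im ∧
      s.im - s'.im ≤ 2 * Real.pi * β / Real.log T) ↔ Y744.dd T s s' ∈ Set.Icc α β := by
    unfold Y744.dd
    have hpi : 0 < 2 * Real.pi := by positivity
    rw [Set.mem_Icc, div_le_iff₀ hL, le_div_iff₀ hL, le_div_iff₀ hpi, div_le_iff₀ hpi,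
      mul_comm (2 * Real.pi) α, mul_comm (2 * Real.pi) β]
  by_cases h : Y744.dd T s s' ∈ Set.Icc α β
  · rw [if_pos (hiff.2 h), Set.indicator_of_mem h]
    unfold Y744.mz mult H370.mult
    ring
  · rw [if_neg (fun h' => h (hiff.1 h')), Set.indicator_of_notMem h]
    ring

lemma R_eq {T : ℝ} (hT : 1 < T) (α β : ℝ) : R T α β = Y744.Nr T α β := by
  unfold R Y744.Nr Y744.Xf
  rw [N_eq hT]
  congr 1
  ring

/-- **The criterion.** -/
theorem result (hRH : RiemannHypothesis) (l : Filter ℝ) (hl : l ≤ atTop) (ℓ₁ ℓ₂ s₁ s₂ : ℝ)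
    (h₁ : 0 < ℓ₁) (h₂ : 0 < ℓ₂) (hirr : Irrational (ℓ₁ / ℓ₂)) (hs₁ : s₁ = 1 ∨ s₁ = -1)
    (hs₂ : s₂ = 1 ∨ s₂ = -1) :
    PairCorrelation l ↔ (OneSided l ℓ₁ s₁ ∧ OneSided l ℓ₂ s₂) := by
  have hev : ∀ᶠ T in l, 1 < T := hl (eventually_gt_atTop 1)
  have e1 : PairCorrelation l ↔
      ∀ α β, α < β → Tendsto (fun T => Y744.Nr T α β) l (𝓝 (Y744.pr α β)) := by
    unfold PairCorrelation
    refine forall_congr' fun α => forall_congr' fun β => imp_congr_right fun _ => ?_
    have e2 : (fun T => R T α β) =ᶠ[l] fun T => Y744.Nr T α β := by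
      filter_upwards [hev] with T hT
      exact R_eq hT α β
    rw [tendsto_congr' e2, D_eq]
    rfl
  have e3 : ∀ ℓ s : ℝ, OneSided l ℓ s ↔ Y744.OneS l ℓ s := by
    intro ℓ s
    unfold OneSided Y744.OneS
    constructor
    · rintro ⟨C, c, a0, hC, hc, ha0, h⟩
      refine ⟨C, c, a0, hC, hc, ha0, fun a ha ε hε => ?_⟩
      filter_upwards [h a ha ε hε, hev] with T h1 hT
      rwa [R_eq hT, D_eq] at h1
    · rintro ⟨C, c, a0, hC, hc, ha0, h⟩
      refine ⟨C, c, a0, hC, hc, ha0, fun a ha ε hε => ?_⟩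
      filter_upwards [h a ha ε hε, hev] with T h1 hT
      rwa [R_eq hT, D_eq]
  rw [e1, e3, e3]
  exact Y744.criterion hRH hl h₁ h₂ hirr hs₁ hs₂

end Pool.Agent.Results.MP_103a5c_nt.FarWindowCriterion
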