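import Pool.Agent.Y749.AH.Main2

/-!
# The form factor of the zeta zeros has less than full mass at every point of `(0, 2)` (under RH)

Assume RH.  Montgomery's pair correlation conjecture is essentially the statement that
`F(α, T) → 1` for `α ≥ 1`.  A priori the mass of `F(·, T)`, which is known to be bounded on bounded intervals,
could be concentrated at points of `[1, ∞)`; for example the alternative hypothesis (all spacings
near `½ ℤ`) would force a unit mass at `α = 2`.  We prove that near every `θ ∈ (0, 2)` the mass of
`F(·, T)` is smaller than `1` by a fixed amount: there is `ε > 0` such that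
`∫_{θ-ε}^{θ+ε} F(α, T) dα ≤ 1 - ε` for all large `T`.  For `θ < 1` this is contained in Montgomery's
theorem; the new range is `1 ≤ θ < 2`.

Idea of the proof.  If, along some sequence of values of `T`, the mass near `θ` were at least `1`,
then, `F` being the Fourier transform of the measure of the differences, this measure would
concentrate on `(1/θ) ℤ`, so that `F` would be nearly periodic with period `θ`; but by Montgomery's theorem
`F(α) = |α|` and `F(α - θ) = |α - θ|` are different for suitable `α ∈ (0, 1)` with `|α - θ| < 1`.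
-/

open Filter
open Complex (I)

namespace Pool.Agent.Results.MP_103a5c_nt.MassDefect

/-- multiplicity of `s` as a zero of the Riemann zeta function (order of vanishing at `s`) -/
noncomputable def zmult (s : ℂ) : ℕ := analyticOrderNatAt riemannZeta s

/-- the number of nontrivial zeros of `ζ` with ordinate in `(0, t]`, with multiplicity -/
noncomputable def NZ (t : ℝ) : ℕ :=
  ∑ᶠ s ∈ {s : ℂ | riemannZeta s = 0 ∧ 0 < s.re ∧ s.re < 1 ∧ 0 < s.im ∧ s.im ≤ t}, zmult s

/-- for `j ≥ 1`: the `j`-th positive ordinate `γ j` of a nontrivial zero of `ζ`, the ordinates being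
listed in nondecreasing order and repeated according to multiplicity -/
noncomputable def γ (j : ℕ) : ℝ := sInf {t : ℝ | j ≤ NZ t}

/-- Montgomery's function `F(α, T)` (the sum is real) -/
noncomputable def F (α T : ℝ) : ℝ :=
  (2 * Real.pi / (T * Real.log T) * ∑ i ∈ Finset.Icc 1 (NZ T), ∑ j ∈ Finset.Icc 1 (NZ T),
    (T : ℂ) ^ (I * α * (γ i - γ j)) * (4 / (4 + (γ i - γ j) ^ 2)) : ℂ).re

/-- **The mass defect.** -/
theorem result (hRH : RiemannHypothesis) (θ : ℝ) (h0 : 0 < θ) (h2 : θ < 2) :
    ∃ ε : ℝ, 0 < ε ∧ ∀ᶠ T in atTop, ∫ α in (θ - ε)..(θ + ε), F α T ≤ 1 - ε := by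
  have hs : 1 / 2 < 1 / θ := one_div_lt_one_div_of_lt h0 h2
  obtain ⟨ε, R0, h1, -, h3, -⟩ := Pool.Agent.Y749.AH.M.mainX hRH hs
  refine ⟨ε, h1, ?_⟩
  rw [one_div_one_div] at h3
  exact h3

end Pool.Agent.Results.MP_103a5c_nt.MassDefect
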