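import Pool.Agent.Y749.Rig.FFf

/-!
# Upper bounds for the mean of the form factor decide the pair correlation conjecture

Assume the Riemann hypothesis. Let `F(α, T)` be Montgomery's function. We say that the upper bound
for the mean holds up to `R` if, for all `0 < a < b ≤ R`, the integral of `F(·, T)` over `[a, b]` is
at most the conjectured value `∫_a^b min(α, 1) dα`, up to `o(1)`.

1. Montgomery's pair correlation conjecture (the asymptotic formula for the number of pairs, for all
   windows) is equivalent to the upper bounds for the mean for all `R`: the corresponding lower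
   bounds, the values at single points and the passage from the means to the windows are automatic.
2. Quantitative form: the upper bounds up to a fixed `R ≥ 1` give lower bounds of the
   conjectured size, up to `1 / (6 (R - b))`, for all `0 < a < b < R`.

All this holds along every filter of values of `T` which tends to infinity, for instance along
every sequence.

Idea of the proof. By Montgomery's theorem the mass of the form factor near the origin is one. The
pairing of the form factor with the tent of support `[-R, R]` is a sum of a nonnegative function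
over all pairs of zeros, and is at least the contribution of the diagonal; this lower bound is
smaller than the conjectured value by a constant only (for the tent `R - |α|`). With the upper bounds
for the means it gives the lower bounds in 2. For `R → ∞` all the means converge to the conjectured
values, and this determines the limits of the pair measures of the zeros.
-/

set_option autoImplicit false

open Filter
open Complex (I)

namespace Pool.Agent.Results.MP_103a5c_nt.MeanUpperBounds

/-- the nontrivial zeros of `ζ` with ordinate in `(0, T]` -/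
def zeros (T : ℝ) : Set ℂ :=
  {s : ℂ | 0 < s.re ∧ s.re < 1 ∧ 0 < s.im ∧ s.im ≤ T ∧ riemannZeta s = 0}

/-- the multiplicity of `s` as a zero of `ζ` -/
noncomputable def mult (s : ℂ) : ℕ := analyticOrderNatAt riemannZeta s

/-- `N(T; α, β)`: the number of ordered pairs `(γ, γ')` of ordinates in `(0, T]`, counted with
multiplicity, diagonal pairs included, with `2πα / log T ≤ γ - γ' ≤ 2πβ / log T` -/
noncomputable def N (T α β : ℝ) : ℕ :=
  ∑ᶠ s ∈ zeros T, ∑ᶠ s' ∈ {s' : ℂ | s' ∈ zeros T ∧
    2 * Real.pi * α / Real.log T ≤ s.im - s'.im ∧ s.im - s'.im ≤ 2 * Real.pi * β / Real.log T},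
      mult s * mult s'

/-- `∫_α^β (1 - (sin πu / πu)²) du + δ(α, β)` -/
noncomputable def P (α β : ℝ) : ℝ :=
  (∫ u in α..β, (1 - (Real.sin (Real.pi * u) / (Real.pi * u)) ^ 2)) +
    if α ≤ 0 ∧ 0 ≤ β then 1 else 0

/-- Montgomery's pair correlation conjecture, along the filter `l` -/
def PairCorrelation (l : Filter ℝ) : Prop := ∀ α β : ℝ, α < β →
  Asymptotics.IsEquivalent l (fun T => (N T α β : ℝ))
    (fun T => P α β * (T / (2 * Real.pi) * Real.log T))

/-- Montgomery's function `F(α, T)` (on RH a real number, written as a complex one) -/
noncomputable def F (T α : ℝ) : ℂ :=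
  ((T / (2 * Real.pi) * Real.log T : ℝ) : ℂ)⁻¹ *
    ∑ᶠ s ∈ zeros T, ∑ᶠ s' ∈ zeros T, (mult s : ℂ) * (mult s' : ℂ) *
      ((T : ℂ) ^ (I * α * (s.im - s'.im)) * (4 / (4 + (s.im - s'.im) ^ 2)))

/-- the upper bound for the mean of `F(·, T)`, up to `R`, along the filter `l` -/
def MeanUpper (l : Filter ℝ) (R : ℝ) : Prop := ∀ a b : ℝ, 0 < a → a < b → b ≤ R →
  ∀ ε : ℝ, 0 < ε → ∀ᶠ T in l, ∫ α in a..b, (F T α).re ≤ (∫ α in a..b, min α 1) + ε

theorem result (RH : RiemannHypothesis) (l : Filter ℝ) (hl : l ≤ atTop) :
    (PairCorrelation l ↔ ∀ R : ℝ, MeanUpper l R) ∧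
    (∀ R : ℝ, 1 ≤ R → MeanUpper l R → ∀ a b : ℝ, 0 < a → a < b → b < R → ∀ ε : ℝ, 0 < ε →
      ∀ᶠ T in l, (∫ α in a..b, min α 1) - 1 / (6 * (R - b)) - ε ≤
        ∫ α in a..b, (F T α).re) :=
  Pool.Agent.Y749.Rig.P.main RH l hl

end Pool.Agent.Results.MP_103a5c_nt.MeanUpperBounds
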